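import Pool.Agent.Helper85.ES.StI2

/-!
# Project ES (MP_cb927e_an), part I, module OEG: the sets `Eg` and the windows
-/

set_option autoImplicit false

open MeasureTheory Set Filter Topology
open scoped ENNReal RealInnerProductSpace

namespace Pool.Agent.Helper75.ES

open Pool.Agent.Helper68.LM (Pl BB Bd Av HL ft fm DQ)
open Pool.Agent.Helper20.RG
open Pool.Agent.Helper20.RL
open Pool.Agent.Helper68.EP (Fb DQ3 Par Dat Sy q0 q1 DD Fo Rs)
open Pool.Agent.Helper61.EP (Nn D8 trS dat Yc)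
open Pool.Agent.Helper68.ES (ag Eg th Rc hn Crit cr Lw)
open Pool.Agent.Helper85.ES

theorem oeg_shift (f : ℤ → ℝ≥0∞) (a : ℤ) : ∑' k : ℤ, f (k + a) = ∑' k : ℤ, f k :=
  (Equiv.addRight a).tsum_eq f

theorem oeg_one (U : ℤ → Set Pl) (E : Set Pl) (hm : ∀ b, MeasurableSet (U b)) (hE : ∀ b, U b ⊆ E)
    (hU : ∀ b b', b ≤ b' → U b ⊆ U b') : ∑' k : ℤ, volume (U (k + 1) \ U k) ≤ volume E := by
  rw [← measure_iUnion]
  · exact measure_mono (iUnion_subset fun k => sdiff_subset.trans (hE _))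
  · have key : ∀ i j : ℤ, i < j → Disjoint (U (i + 1) \ U i) (U (j + 1) \ U j) := by
      intro i j hij
      refine Set.disjoint_left.2 fun z hz hz' => ?_
      exact hz'.2 (hU (i + 1) j (by omega) hz.1)
    intro i j hij
    rcases lt_or_gt_of_ne hij with h | h
    · exact key i j h
    · exact (key j i h).symm
  · exact fun k => (hm _).diff (hm _)

theorem oeg_win (U : ℤ → Set Pl) (E : Set Pl) (hm : ∀ b, MeasurableSet (U b)) (hE : ∀ b, U b ⊆ E)
    (hU : ∀ b b', b ≤ b' → U b ⊆ U b') (a : ℤ) (n : ℕ) :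
    ∑' k : ℤ, volume (U (k + (a + n)) \ U (k + a)) ≤ (n : ℝ≥0∞) * volume E := by
  induction n with
  | zero => simp
  | succ n ih =>
    have h1 : ∀ k : ℤ, volume (U (k + (a + ((n + 1 : ℕ) : ℤ))) \ U (k + a)) ≤
        volume (U (k + (a + n) + 1) \ U (k + (a + n))) + volume (U (k + (a + n)) \ U (k + a)) := by
      intro k
      refine le_trans (measure_mono ?_) (measure_union_le _ _)
      intro z hz
      have e : k + (a + ((n + 1 : ℕ) : ℤ)) = k + (a + n) + 1 := by push_cast; ring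
      rw [e] at hz
      by_cases h : z ∈ U (k + (a + n))
      · exact Or.inr ⟨h, hz.2⟩
      · exact Or.inl ⟨hz.1, h⟩
    calc ∑' k : ℤ, volume (U (k + (a + ((n + 1 : ℕ) : ℤ))) \ U (k + a))
        ≤ ∑' k : ℤ, (volume (U (k + (a + n) + 1) \ U (k + (a + n))) +
          volume (U (k + (a + n)) \ U (k + a))) := ENNReal.tsum_le_tsum h1
      _ = (∑' k : ℤ, volume (U (k + (a + n) + 1) \ U (k + (a + n)))) +
          ∑' k : ℤ, volume (U (k + (a + n)) \ U (k + a)) := ENNReal.tsum_add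
      _ = (∑' k : ℤ, volume (U (k + 1) \ U k)) +
          ∑' k : ℤ, volume (U (k + (a + n)) \ U (k + a)) := by
          rw [oeg_shift (fun k => volume (U (k + 1) \ U k)) (a + n)]
      _ ≤ volume E + (n : ℝ≥0∞) * volume E := add_le_add (oeg_one U E hm hE hU) ih
      _ = ((n + 1 : ℕ) : ℝ≥0∞) * volume E := by push_cast; ring

theorem oeg_floor (a b : ℝ) (h : |a - b| ≤ 1) : |⌊a⌋ - ⌊b⌋| ≤ 1 := by
  rw [abs_le] at h ⊢
  have h1 := Int.floor_le a
  have h2 := Int.lt_floor_add_one a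
  have h3 := Int.floor_le b
  have h4 := Int.lt_floor_add_one b
  constructor
  · have : (⌊b⌋ : ℝ) < ⌊a⌋ + 1 + 1 := by linarith
    have : ⌊b⌋ < ⌊a⌋ + 1 + 1 := by exact_mod_cast this
    omega
  · have : (⌊a⌋ : ℝ) < ⌊b⌋ + 1 + 1 := by linarith
    have : ⌊a⌋ < ⌊b⌋ + 1 + 1 := by exact_mod_cast this
    omega

theorem oeg_coord (a b c r : ℝ) (k : ℤ) (hr : r = (2 : ℝ) ^ k) (h1 : |a - c| ≤ r) (h2 : |b - c| ≤ r) :
    |⌊a / (2 : ℝ) ^ (k + 1)⌋ - ⌊b / (2 : ℝ) ^ (k + 1)⌋| ≤ 1 := by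
  apply oeg_floor
  have hp : (0 : ℝ) < (2 : ℝ) ^ (k + 1) := by positivity
  rw [← sub_div, abs_div, abs_of_pos hp, div_le_one hp, zpow_add₀ (by norm_num), ← hr, zpow_one]
  have h3 : |a - b| ≤ |a - c| + |b - c| := by
    rw [abs_sub_comm b c]
    exact abs_sub_le _ _ _
  linarith

theorem hOEG (hEFB : Pool.Agent.Helper68.EP.StEFB) : Pool.Agent.Helper85.ES.StOEG := by
  obtain ⟨hF1, hF2, -, -, -⟩ := hEFB
  intro E D hE hD
  have hmono : ∀ b b' : ℤ, b ≤ b' → Fb E D b ⊆ Fb E D b' := fun b b' h => hF2 E D D b b' h le_rfl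
  have hBM : ∀ b b' : ℤ, BM (Fb E D b \ Fb E D b') := fun b b' =>
    ⟨((hF1 E D b).2.1 hE.1).diff ((hF1 E D b').2.1 hE.1), ((hF1 E D b).2.2 hE).2.subset sdiff_subset⟩
  refine ⟨fun q k => ⟨hBM _ _, sdiff_subset.trans (hF1 E D _).1⟩, ?_, ?_⟩
  · intro q
    have hag : ag q ≤ 2 ^ (q + 1) ∧ 0 ≤ ag q := by
      unfold ag
      split_ifs
      · exact ⟨by positivity, le_rfl⟩
      · exact ⟨by rw [pow_succ]; nlinarith [pow_pos (by norm_num : (0 : ℤ) < 2) q], by positivity⟩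
    obtain ⟨n, hn⟩ : ∃ n : ℕ, ((2 : ℤ) ^ (q + 1) - ag q) = n :=
      ⟨((2 : ℤ) ^ (q + 1) - ag q).toNat, by omega⟩
    have h1 := oeg_win (fun b => Fb E D b) E (fun b => (hF1 E D b).2.1 hE.1) (fun b => (hF1 E D b).1)
      hmono (-(2 : ℤ) ^ (q + 1)) n
    have h2 : ∀ k : ℤ, Eg E D q k =
        Fb E D (k + (-(2 : ℤ) ^ (q + 1) + n)) \ Fb E D (k + -(2 : ℤ) ^ (q + 1)) := by
      intro k
      unfold Eg
      rw [← hn]
      congr 2 <;> ring
    simp only [h2]
    refine h1.trans ?_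
    gcongr
    have h3 : (n : ℤ) ≤ 2 ^ (q + 1) := by omega
    have h4 : n ≤ 2 ^ (q + 1) := by exact_mod_cast h3
    exact_mod_cast h4
  · intro G hG
    refine ⟨fun l => hBM _ _, ?_, ?_, ?_⟩
    · have h1 := oeg_win (fun b => Fb E D (b * G)) E (fun b => (hF1 E D _).2.1 hE.1)
        (fun b => (hF1 E D _).1)
        (fun b b' h => hmono _ _ (mul_le_mul_of_nonneg_right h (by positivity))) (-16) 9
      have h2 : ∀ l : ℤ, Fb E D ((l - 7) * G) \ Fb E D ((l - 16) * G) =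
          Fb E D ((l + (-16 + (9 : ℕ))) * G) \ Fb E D ((l + -16) * G) := by
        intro l
        congr 2
      simp only [h2]
      exact h1
    · intro l y k' hk
      rcases (Fb E D ((l - 7) * G) ∩ Sq y ((2 : ℝ) ^ k')).eq_empty_or_nonempty with h | ⟨z, hz1, hz2⟩
      · refine le_trans (measure_mono (t := ∅) ?_) (by simp)
        rw [← h]
        exact inter_subset_inter_left _ sdiff_subset
      · have h1 := hz1.2 (k' + 1) (by omega)
        refine le_trans (measure_mono ?_) (h1.trans (le_of_eq ?_))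
        · rintro w ⟨hw1, hw2⟩
          exact ⟨(hF1 E D _).1 hw1.1, oeg_coord _ _ _ _ k' rfl hw2.1 hz2.1,
            oeg_coord _ _ _ _ k' rfl hw2.2 hz2.2⟩
        · congr 1
          rw [zpow_add₀ (by norm_num), zpow_one]
          ring
    · intro q k l hq hGq h1 h2 z hz
      unfold Eg ag at hz
      rw [if_neg (by omega)] at hz
      have e : (2 : ℤ) ^ q = 8 * G := by
        rw [hGq]
        push_cast
        rw [show (8 : ℤ) = 2 ^ 3 by norm_num, ← pow_add]
        congr 1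
        omega
      have e' : (2 : ℤ) ^ (q + 1) = 16 * G := by rw [pow_succ, e]; ring
      rw [e, e'] at hz
      refine ⟨hmono _ _ ?_ hz.1, fun h => hz.2 (hmono _ _ ?_ h)⟩
      · nlinarith
      · nlinarith

end Pool.Agent.Helper75.ES
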