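import Pool.Agent.Helper85.ES.StI2
import Pool.Agent.Helper41.RL.M_LXM

/-!
# Project ES (MP_cb927e_an), part I, module OTR: age levels below `(p-1-e)u`
-/

set_option autoImplicit false

open MeasureTheory Set Filter Topology
open scoped ENNReal RealInnerProductSpace

namespace Pool.Agent.Helper75.ES

open Pool.Agent.Helper68.LM (Pl BB Bd Av HL ft fm DQ)
open Pool.Agent.Helper20.RG
open Pool.Agent.Helper20.RL
open Pool.Agent.Helper68.EP (Fb DQ3 Par Dat Sy q0 q1 DD Fo Rs)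
open Pool.Agent.Helper61.EP (Nn D8 trS dat Yc)
open Pool.Agent.Helper68.ES (ag Eg th Rc hn Crit cr Lw)
open Pool.Agent.Helper85.ES

theorem otr_key (hLFM : Pool.Agent.Helper20.RL.StLFM) (hLER : Pool.Agent.Helper20.RL.StLER)
    (Δ : Dat) (ct : ℕ → ℕ → Pl) (u j : ℕ) (k : ℤ) (θ : ℝ) (F : Set Pl) (hF : BM F) (hθ : 0 < θ) :
    volume {x | Hit (Δ.sl u j) (ct u j) (Δ.fl u j) u k (Rc Δ u j k θ F) x} ≤
      ENNReal.ofReal (35 / θ) * volume F := by
  have hfml : Fml F (Δ.sl u j) θ (Rc Δ u j k θ F) (fun _ => k - (u : ℤ))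
      (fun _ => k - (Δ.fl u j : ℤ)) := by
    refine ⟨fun z hz z' hz' => ⟨?_, rfl, rfl⟩, fun z hz => hz⟩
    exact ((hLFM.1 F (Δ.sl u j) (k - (u : ℤ)) (k - (Δ.fl u j : ℤ)) θ).2 z z' hz').2 hz
  have h2 := hLER F (Δ.sl u j) θ θ (Rc Δ u j k θ F) (Rc Δ u j k θ F) (fun _ => k - (u : ℤ))
      (fun _ => k - (Δ.fl u j : ℤ)) (k - (u : ℤ)) 3 2 hF.1 hfml hθ hθ Subset.rfl
      (fun z hz => ⟨le_rfl, hfml.rich z hz⟩)
  have h3 : {x | Hit (Δ.sl u j) (ct u j) (Δ.fl u j) u k (Rc Δ u j k θ F) x} ⊆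
        (fun x => x + (-((2 : ℝ) ^ k • ct u j))) ⁻¹'
          {x | ∃ z ∈ Rc Δ u j k θ F, |x 0 - z 0| ≤ (3 : ℕ) * (2 : ℝ) ^ (k - (u : ℤ)) ∧
            |pr (Δ.sl u j) x - pr (Δ.sl u j) z| ≤ (2 : ℕ) * (2 : ℝ) ^ (k - (Δ.fl u j : ℤ))} := by
    rintro x ⟨y, hy, e1, e2⟩
    refine ⟨y, hy, ?_, ?_⟩
    · simp only [← sub_eq_add_neg]
      push_cast
      exact e1
    · simp only [← sub_eq_add_neg]
      push_cast
      exact e2
  calc _ ≤ _ := measure_mono h3
    _ = _ := measure_preimage_add_right _ _ _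
    _ ≤ _ := h2
    _ ≤ ENNReal.ofReal ((2 * (3 : ℕ) + 1) * (2 * (2 : ℕ) + 1) / θ) * volume F := by
        gcongr
        exact inter_subset_left
    _ = _ := by
        congr 2
        push_cast
        norm_num

theorem hOTR (hLGR : Pool.Agent.Helper20.RL.StLGR) (hLFM : Pool.Agent.Helper20.RL.StLFM)
    (hLER : Pool.Agent.Helper20.RL.StLER) (hOEG : Pool.Agent.Helper85.ES.StOEG) :
    Pool.Agent.Helper85.ES.StOTR := by
  intro P e ε₃ Δ ct u q i E he hε hεe hu hq hE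
  have hD : 0 < DD P u := by unfold DD; positivity
  obtain ⟨h1, h2, -⟩ := hOEG E (DD P u) hE hD
  have hth : 0 < th i := by unfold th; positivity
  have hm : (0 : ℝ) < (2 : ℝ) ^ ((i : ℝ) - ε₃ * u) := by positivity
  have hk : ∀ k : ℤ, volume {x | (2 : ℝ) ^ ((i : ℝ) - ε₃ * u) ≤ hn P Δ ct u q i k E x} ≤
      ENNReal.ofReal (1260 * (2 : ℝ) ^ ((1 + ε₃) * u)) * volume (Eg E (DD P u) q k) := by
    intro k
    have h3 := Pool.Agent.Helper41.RL.markov_count volume (2 ^ u)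
      (fun j => {x | Hit (Δ.sl u j) (ct u j) (Δ.fl u j) u k
        (Rc Δ u j k (th i) (Eg E (DD P u) q k)) x}) hm
    refine le_trans h3 ?_
    calc _ ≤ (∑ j ∈ Finset.range (2 ^ u), ENNReal.ofReal (35 / th i) *
          volume (Eg E (DD P u) q k)) / ENNReal.ofReal ((2 : ℝ) ^ ((i : ℝ) - ε₃ * u)) := by
          gcongr with j _
          exact otr_key hLFM hLER Δ ct u j k (th i) _ (h1 q k).1 hth
      _ = _ := by
          rw [Finset.sum_const, Finset.card_range, nsmul_eq_mul, ENNReal.div_eq_inv_mul, ← mul_assoc,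
            ← mul_assoc, ← ENNReal.ofReal_inv_of_pos hm, ← ENNReal.ofReal_natCast,
            ← ENNReal.ofReal_mul (by positivity), ← ENNReal.ofReal_mul (by positivity)]
          congr 2
          unfold th
          push_cast
          rw [← Real.rpow_neg (by norm_num), ← Real.rpow_natCast, ← Real.rpow_intCast]
          have e1 : (35 : ℝ) / ((2 : ℝ) ^ (((-(i : ℤ)) : ℤ) : ℝ) / 36) = 1260 * (2 : ℝ) ^ (i : ℝ) := by
            push_cast
            rw [Real.rpow_neg (by norm_num)]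
            field_simp
            norm_num
          rw [e1]
          calc (2 : ℝ) ^ (-((i : ℝ) - ε₃ * u)) * (2 : ℝ) ^ (u : ℝ) * (1260 * (2 : ℝ) ^ (i : ℝ))
              = 1260 * ((2 : ℝ) ^ (-((i : ℝ) - ε₃ * u)) * (2 : ℝ) ^ (u : ℝ) * (2 : ℝ) ^ (i : ℝ)) := by
                ring
            _ = 1260 * (2 : ℝ) ^ ((1 + ε₃) * u) := by
                rw [← Real.rpow_add (by norm_num), ← Real.rpow_add (by norm_num)]
                congr 2
                ring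
  calc ∑' k : ℤ, volume {x | (2 : ℝ) ^ ((i : ℝ) - ε₃ * u) ≤ hn P Δ ct u q i k E x}
      ≤ ∑' k : ℤ, ENNReal.ofReal (1260 * (2 : ℝ) ^ ((1 + ε₃) * u)) * volume (Eg E (DD P u) q k) :=
        ENNReal.tsum_le_tsum hk
    _ = ENNReal.ofReal (1260 * (2 : ℝ) ^ ((1 + ε₃) * u)) * ∑' k : ℤ, volume (Eg E (DD P u) q k) :=
        ENNReal.tsum_mul_left
    _ ≤ ENNReal.ofReal (1260 * (2 : ℝ) ^ ((1 + ε₃) * u)) * ((2 : ℝ≥0∞) ^ (q + 1) * volume E) := by
        gcongr
        exact h2 q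
    _ = ENNReal.ofReal (2520 * (2 : ℝ) ^ ((1 + ε₃) * u + q)) * volume E := by
        rw [← mul_assoc, show (2 : ℝ≥0∞) ^ (q + 1) = ENNReal.ofReal ((2 : ℝ) ^ (q + 1)) by
          rw [ENNReal.ofReal_pow (by norm_num), ENNReal.ofReal_ofNat],
          ← ENNReal.ofReal_mul (by positivity)]
        congr 2
        rw [Real.rpow_add (by norm_num), Real.rpow_natCast, pow_succ]
        ring
    _ ≤ ENNReal.ofReal (2520 * (2 : ℝ) ^ ((P.p - e / 2) * u)) * volume E := by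
        gcongr
        · norm_num
        · have hu' : (1 : ℝ) ≤ u := by exact_mod_cast hu
          nlinarith

end Pool.Agent.Helper75.ES
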